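import Pool.Agent.Lib.MP_1e46c9_co.Tetra

/-!
The graph of an iterated pyramid is dimensionally ambiguous.

* For `n = 3` and `n = 4` and every `d ≥ 5` there is an admissible basis `P^n` for which the graph
  of the `(d-n)`-fold pyramid is also the graph of a `(d-1)`-polytope.
* For every `n ≥ 3`, every `d ≥ n` and every `n`-polytope `P`, the graph of a `(d-n)`-fold pyramid
  with basis `P` is `d'`-realizable for all `d'` with `(n+d)/2 ≤ d' ≤ d`; in particular for
  `d ≥ n + 2` it is always the graph of a `(d-1)`-polytope.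
-/

namespace Pool.Agent.Results.MP_1e46c9_co.AlwaysAmbiguous

open Pool.Agent.Lib.MP_1e46c9_co

theorem result :
    (∀ n d : ℕ, (n = 3 ∨ n = 4) → 5 ≤ d →
      ∃ (N : ℕ) (P R : Set (E N)), Admissible n P ∧ IsIteratedPyramid (d - n) P R ∧
        IsPolytope d R ∧ Realizable (d - 1) (polyGraph R)) ∧
    (∀ (N n d : ℕ) (P R : Set (E N)), 3 ≤ n → n ≤ d → IsPolytope n P →
      IsIteratedPyramid (d - n) P R →
        ∀ d' : ℕ, n + d ≤ 2 * d' → d' ≤ d → Realizable d' (polyGraph R)) := by
  constructor
  · intro n d hn hd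
    refine ⟨d + 1, simp' n (by omega), simp' d le_rfl, simp_admissible n (by omega) _, ?_,
      simp_poly d _, ?_⟩
    · obtain ⟨k, rfl⟩ : ∃ k, d = n + k := ⟨d - n, by omega⟩
      have h := simp_iter (N := n + k + 1) n k le_rfl
      have hk : n + k - n = k := by omega
      rw [hk]
      exact h
    · obtain ⟨k, rfl⟩ : ∃ k, d = 3 + k := ⟨d - 3, by omega⟩
      have h := simp_iter (N := 3 + k + 1) 3 k le_rfl
      exact iterated_realizable le_rfl (simp_poly 3 _) k 1 _ (by omega) h
  · intro N n d P R hn hnd hP hR d' h1 h2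
    have h := iterated_realizable hn hP (d - n) (d - d') R (by omega) hR
    have h3 : n + (d - n) - (d - d') = d' := by omega
    rw [h3] at h
    exact h

end Pool.Agent.Results.MP_1e46c9_co.AlwaysAmbiguous
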